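import Pool.Agent.Helper35.PQF.St

set_option autoImplicit false

/-!
# Project PQF, module F3: almost every ray
-/

open Filter Topology Matrix Set MeasureTheory
open scoped ENNReal ComplexOrder

namespace Pool.Agent.Helper12.PM

open Pool.Agent.Helper35.PM

theorem exp_lt1 {x : ℝ} (hx : x < 0) : Real.exp x < 1 := by
  rw [← Real.exp_zero]
  exact Real.exp_lt_exp.2 hx

theorem norm_pt (x θ : ℝ) : ‖pt x θ‖ = Real.exp x := by
  unfold pt
  rw [Complex.norm_exp]
  simp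

theorem pt_mem {x : ℝ} (hx : x < 0) (θ : ℝ) : pt x θ ∈ Metric.ball (0 : ℂ) 1 := by
  rw [mem_ball_zero_iff, norm_pt]
  exact exp_lt1 hx

theorem dist_add {Γ : Type} [Group Γ] (U : (Γ →* SL) → Ultrafilter ℝ) (ρ σ τ : Γ →* SL)
    (B : ℝ≥0∞) (h : PressureLE U σ τ B) :
    pressureDist U ρ τ ≤ pressureDist U ρ σ + B := by
  unfold pressureDist
  rw [← tsub_le_iff_right]
  refine le_sInf fun B' hB' => ?_
  rw [tsub_le_iff_right]
  exact sInf_le (PressureLE.trans ρ σ τ B' B hB' h)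

theorem exists_zt {t : ℝ} (h0 : 0 < t) (h1 : t < 1) : ∃ L : ℝ, 0 ≤ L ∧ zt L = (t : ℂ) := by
  refine ⟨Real.log ((1 + t) / (1 - t)), ?_, ?_⟩
  · refine Real.log_nonneg ?_
    rw [le_div_iff₀ (by linarith)]
    linarith
  · unfold zt
    congr 1
    set y := Real.log ((1 + t) / (1 - t)) / 2 with hy
    have hpos : 0 < (1 + t) / (1 - t) := div_pos (by linarith) (by linarith)
    have e1 : Real.exp y * Real.exp y = (1 + t) / (1 - t) := by
      rw [← Real.exp_add, hy, add_halves, Real.exp_log hpos]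
    have e2 : Real.exp (-y) = (Real.exp y)⁻¹ := Real.exp_neg y
    have hE : 0 < Real.exp y := Real.exp_pos y
    rw [Real.tanh_eq_sinh_div_cosh, Real.sinh_eq, Real.cosh_eq, e2, div_div_div_cancel_right₀
      (two_ne_zero)]
    have h3 : (1 - t) * (Real.exp y * Real.exp y) = 1 + t := by
      rw [e1, mul_div_cancel₀ _ (by linarith : (1 - t) ≠ 0)]
    rw [div_eq_iff (by positivity)]
    field_simp
    linarith

theorem dist_lt (qf : St_QF) (f1 : St_F1) (g : ℕ) (hg : 2 ≤ g)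
    (U : (SurfaceGroup g →* SL) → Ultrafilter ℝ) (hU : ∀ ρ, IsQF ρ → Adapted (U ρ) ρ)
    (f : ℂ → SurfaceGroup g →* SL) (hf : HolDisc f) (θ x : ℝ) (hx : x < 0) :
    pressureDist U (f 0) (f (pt x θ)) < ∞ := by
  obtain ⟨L, hL, hzt⟩ := exists_zt (Real.exp_pos x) (exp_lt1 hx)
  have hmap : MapsTo (fun z : ℂ => Complex.exp (θ * Complex.I) * z) (Metric.ball (0 : ℂ) 1)
      (Metric.ball (0 : ℂ) 1) := by
    intro z hz
    rw [mem_ball_zero_iff] at hz ⊢
    rw [norm_mul, Complex.norm_exp_ofReal_mul_I, one_mul]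
    exact hz
  have hdisc : HolDisc (fun z => f (Complex.exp (θ * Complex.I) * z)) := by
    refine ⟨fun γ i j => ?_, fun z hz => hf.2 _ (hmap hz)⟩
    exact (hf.1 γ i j).comp ((differentiable_id.const_mul _).differentiableOn) hmap
  have hzt' : ∀ t : ℝ, zt t ∈ Metric.ball (0 : ℂ) 1 := by
    intro t
    rw [mem_ball_zero_iff]
    unfold zt
    rw [Complex.norm_real, Real.norm_eq_abs]
    exact Real.abs_tanh_lt_one _
  have h := (f1 g hg U hU _ hdisc L 2 hL (fun t _ => by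
    have := (qf g hg _ (hdisc.2 (zt t) (hzt' t))).2.1
    linarith)).2
  simp only [mul_zero] at h
  rw [hzt] at h
  have e : Complex.exp (θ * Complex.I) * ((Real.exp x : ℝ) : ℂ) = pt x θ := by
    unfold pt
    rw [Complex.ofReal_exp, ← Complex.exp_add, add_comm]
  rw [e] at h
  exact h.trans_lt ENNReal.ofReal_lt_top

theorem int_inv {x₀ x : ℝ} (h1 : -1 < x₀) (h2 : x₀ < x) (h3 : x < 0) :
    ∫⁻ s in Ioo x₀ x, (ENNReal.ofReal (-s))⁻¹ ≤ ENNReal.ofReal (Real.log (1 / (-x))) := by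
  have e1 : ∫⁻ s in Ioo x₀ x, (ENNReal.ofReal (-s))⁻¹ =
      ∫⁻ s in Ioo x₀ x, ENNReal.ofReal ((-s)⁻¹) := by
    refine setLIntegral_congr_fun measurableSet_Ioo fun s hs => ?_
    have : 0 < -s := by linarith [hs.2]
    rw [ENNReal.ofReal_inv_of_pos this]
  have hint : IntervalIntegrable (fun s : ℝ => (-s)⁻¹) volume x₀ x := by
    refine ContinuousOn.intervalIntegrable ?_
    refine ContinuousOn.inv₀ continuous_neg.continuousOn fun s hs => ?_
    rw [uIcc_of_le h2.le] at hs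
    have : s < 0 := lt_of_le_of_lt hs.2 h3
    linarith [this]
  have hint' : IntegrableOn (fun s : ℝ => (-s)⁻¹) (Ioo x₀ x) :=
    ((intervalIntegrable_iff_integrableOn_Ioo_of_le h2.le).1 hint)
  rw [e1, ← ofReal_integral_eq_lintegral_ofReal hint']
  · refine ENNReal.ofReal_le_ofReal ?_
    have e2 : ∫ s in Ioo x₀ x, (-s)⁻¹ = Real.log ((-x₀) / (-x)) := by
      rw [← integral_Ioc_eq_integral_Ioo, ← intervalIntegral.integral_of_le h2.le]
      rw [intervalIntegral.integral_comp_neg (fun s => s⁻¹)]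
      exact integral_inv_of_pos (by linarith) (by linarith)
    rw [e2]
    refine Real.log_le_log (div_pos (by linarith) (by linarith)) ?_
    exact div_le_div_of_nonneg_right (by linarith) (by linarith)
  · refine (ae_restrict_iff' measurableSet_Ioo).2 (Eventually.of_forall fun s hs => ?_)
    have : 0 < -s := by linarith [hs.2]
    positivity

theorem tail {E : ℝ → ℝ≥0∞} (hE : ∫⁻ x in Ioo (-1) 0, E x ≠ ∞) (ε : ℝ≥0∞) (hε : 0 < ε) :
    ∃ x₀ : ℝ, -1 < x₀ ∧ x₀ < 0 ∧ ∫⁻ x in Ioo x₀ 0, E x ≤ ε := by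
  have h1 : Tendsto (fun i : ℝ => (volume.restrict (Ioo (-1 : ℝ) 0)) (Ioo i 0)) (𝓝[<] 0) (𝓝 0) := by
    have h2 : Tendsto (fun i : ℝ => volume (Ioo i 0)) (𝓝[<] 0) (𝓝 0) := by
      have h3 : Tendsto (fun i : ℝ => ENNReal.ofReal (0 - i)) (𝓝[<] 0) (𝓝 (ENNReal.ofReal (0 - 0)))
        := ((ENNReal.continuous_ofReal.comp (continuous_const.sub continuous_id)).tendsto 0).mono_left
          nhdsWithin_le_nhds
      rw [sub_zero, ENNReal.ofReal_zero] at h3
      refine h3.congr fun i => ?_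
      rw [Real.volume_Ioo]
    exact tendsto_of_tendsto_of_tendsto_of_le_of_le tendsto_const_nhds h2 (fun _ => zero_le)
      (fun i => Measure.restrict_apply_le _ _)
  have h4 := tendsto_setLIntegral_zero hE h1
  have h5 := (ENNReal.tendsto_nhds_zero.1 h4 ε hε)
  have h6 : ∀ᶠ i : ℝ in 𝓝[<] 0, i ∈ Ioo (-1 : ℝ) 0 := Ioo_mem_nhdsLT (by norm_num)
  obtain ⟨x₀, h7, h8⟩ := (h5.and h6).exists
  refine ⟨x₀, h8.1, h8.2, ?_⟩
  rw [Measure.restrict_restrict measurableSet_Ioo, Ioo_inter_Ioo] at h7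
  simpa [max_eq_left h8.1.le] using h7

theorem f3 (qf : St_QF) (po : St_PO) (ra2 : St_RA2) (f1 : St_F1) (f2 : St_F2) (cs : St_CS) :
    St_F3 := by
  intro g hg U hU f hf
  obtain ⟨q, hqm, hq, hint⟩ := f2 g hg U hU f hf
  have hfacts : ∀ z ∈ Metric.ball (0 : ℂ) 1, Facts (f z) := fun z hz => qf g hg _ (hf.2 z hz)
  -- the right side is finite
  have hcont : ContinuousOn (fun z => 1 / ent (f z)) (Metric.ball 0 1) :=
    ra2 _ _ (po _ f U hf.1 hfacts (fun z hz => hU _ (hf.2 z hz)))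
  have hfin : ∫⁻ θ in Ioo 0 (2 * Real.pi),
      ENNReal.ofReal ((2 - ent (f (pt (-1) θ))) / ent (f (pt (-1) θ))) < ∞ := by
    have hcomp : IsCompact (Metric.sphere (0 : ℂ) (Real.exp (-1))) := isCompact_sphere _ _
    have hsub : Metric.sphere (0 : ℂ) (Real.exp (-1)) ⊆ Metric.ball 0 1 := by
      intro z hz
      rw [mem_sphere_zero_iff_norm] at hz
      rw [mem_ball_zero_iff, hz]
      exact exp_lt1 (by norm_num)
    obtain ⟨M, hM⟩ := (hcomp.bddAbove_image (hcont.mono hsub))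
    have hb : ∀ θ : ℝ, ENNReal.ofReal ((2 - ent (f (pt (-1) θ))) / ent (f (pt (-1) θ))) ≤
        ENNReal.ofReal (2 * M) := by
      intro θ
      refine ENNReal.ofReal_le_ofReal ?_
      have hp : pt (-1) θ ∈ Metric.sphere (0 : ℂ) (Real.exp (-1)) := by
        rw [mem_sphere_zero_iff_norm, norm_pt]
      have h1 : 1 / ent (f (pt (-1) θ)) ≤ M := hM (mem_image_of_mem _ hp)
      have h2 : 0 < ent (f (pt (-1) θ)) := (hfacts _ (hsub hp)).2.1
      calc (2 - ent (f (pt (-1) θ))) / ent (f (pt (-1) θ))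
          ≤ 2 / ent (f (pt (-1) θ)) := div_le_div_of_nonneg_right (by linarith) h2.le
        _ = 2 * (1 / ent (f (pt (-1) θ))) := by ring
        _ ≤ 2 * M := by linarith
    calc ∫⁻ θ in Ioo 0 (2 * Real.pi),
          ENNReal.ofReal ((2 - ent (f (pt (-1) θ))) / ent (f (pt (-1) θ)))
        ≤ ∫⁻ _ in Ioo 0 (2 * Real.pi), ENNReal.ofReal (2 * M) := lintegral_mono fun θ => hb θ
      _ = ENNReal.ofReal (2 * M) * volume (Ioo 0 (2 * Real.pi)) := by
        rw [setLIntegral_const]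
      _ < ∞ := by
        rw [Real.volume_Ioo]
        exact ENNReal.mul_lt_top ENNReal.ofReal_lt_top ENNReal.ofReal_lt_top
  have hmeas : Measurable (Function.uncurry fun θ x : ℝ => ENNReal.ofReal (-x) * q θ x) := by
    refine Measurable.mul ?_ hqm
    exact ENNReal.measurable_ofReal.comp measurable_snd.neg
  have hae : ∀ᵐ θ : ℝ ∂(volume.restrict (Ioo 0 (2 * Real.pi))),
      ∫⁻ x in Ioo (-1) 0, ENNReal.ofReal (-x) * q θ x < ∞ := by
    refine ae_lt_top ?_ ((hint 1 one_pos).trans_lt hfin).ne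
    exact Measurable.lintegral_prod_right' (ν := volume.restrict (Ioo (-1 : ℝ) 0)) hmeas
  filter_upwards [hae] with θ hθ
  rw [ENNReal.tendsto_nhds_zero]
  intro ε hε
  obtain ⟨r, hr0, hrε⟩ := ENNReal.lt_iff_exists_nnreal_btwn.1 hε
  have hr : 0 < (r : ℝ) := by exact_mod_cast hr0
  set e : ℝ := r / 2 with he
  have he0 : 0 < e := by positivity
  obtain ⟨x₀, hx1, hx2, hx3⟩ := tail hθ.ne (ENNReal.ofReal (e ^ 2))
    (ENNReal.ofReal_pos.2 (by positivity))
  have hD := dist_lt qf f1 g hg U hU f hf θ x₀ hx2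
  set D := pressureDist U (f 0) (f (pt x₀ θ)) with hDdef
  have hs : Tendsto (fun x : ℝ => ENNReal.ofReal (Real.sqrt (Real.log (1 / (-x))))) (𝓝[<] 0)
      (𝓝 ∞) := by
    refine ENNReal.tendsto_ofReal_atTop.comp (Real.tendsto_sqrt_atTop.comp
      (Real.tendsto_log_atTop.comp ?_))
    have h1 : Tendsto (fun x : ℝ => -x) (𝓝[<] 0) (𝓝[>] 0) := by
      refine tendsto_nhdsWithin_iff.2 ⟨?_, ?_⟩
      · have : Tendsto (fun x : ℝ => -x) (𝓝 0) (𝓝 (-0)) := continuous_neg.tendsto 0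
        rw [neg_zero] at this
        exact this.mono_left nhdsWithin_le_nhds
      · filter_upwards [self_mem_nhdsWithin] with x hx
        exact neg_pos.2 (mem_Iio.1 hx)
    have h2 := tendsto_inv_nhdsGT_zero.comp h1
    refine h2.congr fun x => ?_
    simp [one_div]
  have hDs := ENNReal.Tendsto.const_div (a := D) hs (Or.inr hD.ne)
  rw [ENNReal.div_top] at hDs
  have hev := ENNReal.tendsto_nhds_zero.1 hDs (ENNReal.ofReal e) (ENNReal.ofReal_pos.2 he0)
  have hev2 : ∀ᶠ x : ℝ in 𝓝[<] 0, x ∈ Ioo x₀ 0 := Ioo_mem_nhdsLT hx2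
  have hev3 : ∀ᶠ x : ℝ in 𝓝[<] 0,
      (1 : ℝ≥0∞) < ENNReal.ofReal (Real.sqrt (Real.log (1 / (-x)))) :=
    hs.eventually (lt_mem_nhds ENNReal.one_lt_top)
  filter_upwards [hev, hev2, hev3] with x hxa hxb hxc
  set S := ENNReal.ofReal (Real.sqrt (Real.log (1 / (-x)))) with hS
  -- the path
  have hS0 : S ≠ 0 := (lt_trans one_pos hxc).ne'
  have hST : S ≠ ∞ := ENNReal.ofReal_ne_top
  obtain ⟨q₁, hq1m, hq1, hq1i⟩ := cs (q θ) (fun s => ENNReal.ofReal (-s)) x₀ x
    (hqm.comp measurable_prodMk_left)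
    (ENNReal.measurable_ofReal.comp measurable_neg)
    (fun t ht => ⟨(ENNReal.ofReal_pos.2 (by linarith [ht.2, hxb.2])).ne', ENNReal.ofReal_ne_top⟩)
  have hq1b : ∫⁻ t in Ioo x₀ x, q₁ t ≤ ENNReal.ofReal e * S := by
    refine hq1i.trans (mul_le_mul' ?_ ?_)
    · have h1 : ∫⁻ t in Ioo x₀ x, ENNReal.ofReal (-t) * q θ t ≤ ENNReal.ofReal (e ^ 2) :=
        (lintegral_mono_set (Ioo_subset_Ioo_right hxb.2.le)).trans hx3
      refine (ENNReal.rpow_le_rpow h1 (by norm_num)).trans ?_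
      rw [ENNReal.ofReal_rpow_of_nonneg (by positivity) (by norm_num), ← Real.sqrt_eq_rpow,
        Real.sqrt_sq he0.le]
    · have h1 := int_inv hx1 hxb.1 hxb.2
      refine (ENNReal.rpow_le_rpow h1 (by norm_num)).trans ?_
      rcases le_or_gt 0 (Real.log (1 / (-x))) with h | h
      · rw [ENNReal.ofReal_rpow_of_nonneg h (by norm_num), ← Real.sqrt_eq_rpow]
      · rw [ENNReal.ofReal_of_nonpos h.le, ENNReal.zero_rpow_of_pos (by norm_num)]
        exact zero_le
  have hsmooth : SmoothPath (fun s => f (pt s θ)) x₀ x := by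
    refine ⟨fun γ i j => ?_, fun t ht => hf.2 _ (pt_mem (lt_of_le_of_lt ht.2 hxb.2) θ)⟩
    have h1 : ContDiffOn ℂ ((⊤ : ℕ∞) : WithTop ℕ∞) (fun z : ℂ => (f z γ : Mat) i j)
        (Metric.ball 0 1) := (hf.1 γ i j).contDiffOn Metric.isOpen_ball
    have h2 := h1.restrict_scalars ℝ
    have h3 : ContDiff ℝ ((⊤ : ℕ∞) : WithTop ℕ∞) (fun s : ℝ => pt s θ) := by
      unfold pt
      have : ContDiff ℝ ((⊤ : ℕ∞) : WithTop ℕ∞) (fun s : ℝ => (s : ℂ) + θ * Complex.I) :=
        Complex.ofRealCLM.contDiff.add contDiff_const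
      exact (Complex.contDiff_exp (𝕜 := ℝ)).comp this
    exact h2.comp h3.contDiffOn fun t ht => pt_mem (lt_of_le_of_lt ht.2 hxb.2) θ
  have hpath : PressureLE U (f (pt x₀ θ)) (f (pt x θ)) (ENNReal.ofReal e * S) := by
    refine PressureLE.path (fun s => f (pt s θ)) x₀ x _ hxb.1.le hsmooth ⟨q₁, hq1m, ?_, hq1b⟩
    intro t ht
    rw [hq1]
    exact hq θ t (lt_trans ht.2 hxb.2)
  have hdist := dist_add U (f 0) _ _ _ hpath
  calc pressureDist U (f 0) (f (pt x θ)) / S ≤ (D + ENNReal.ofReal e * S) / S := by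
        gcongr
    _ = D / S + ENNReal.ofReal e := by
        rw [ENNReal.add_div, ENNReal.mul_div_cancel_right hS0 hST]
    _ ≤ ENNReal.ofReal e + ENNReal.ofReal e := by
        gcongr
    _ = ENNReal.ofReal r := by
        rw [← ENNReal.ofReal_add he0.le he0.le, he, add_halves]
    _ ≤ ε := by
        rw [ENNReal.ofReal_coe_nnreal]
        exact hrε.le

end Pool.Agent.Helper12.PM
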